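import Mathlib

set_option autoImplicit false

namespace Pool.Agent.H62KD

open MvPolynomial

theorem D_aeval {L : Type} [Field L] (A : Subring L) {ι : Type} [Fintype ι] (x : ι → L)
    (p : MvPolynomial ι A) :
    KaehlerDifferential.D A L (aeval x p) =
      ∑ i, (aeval x (pderiv i p)) • KaehlerDifferential.D A L (x i) := by
  classical
  induction p using MvPolynomial.induction_on with
  | C a => simp
  | add p q hp hq =>
    simp only [map_add, add_smul, Finset.sum_add_distrib, hp, hq]
  | mul_X p j hp =>
    rw [map_mul, aeval_X, Derivation.leibniz, hp]
    have : ∀ i, (aeval x (pderiv i (p * X j))) • KaehlerDifferential.D A L (x i) =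
        x j • ((aeval x (pderiv i p)) • KaehlerDifferential.D A L (x i)) +
        (if i = j then (aeval x p) • KaehlerDifferential.D A L (x i) else 0) := by
      intro i
      rw [Derivation.leibniz, map_add, add_smul, add_comm]
      congr 1
      · rw [smul_eq_mul, map_mul, aeval_X, mul_smul]
      · rw [smul_eq_mul, map_mul, pderiv_X]
        by_cases h : i = j
        · subst h
          simp
        · simp [h]
    rw [Finset.sum_congr rfl fun i _ => this i, Finset.sum_add_distrib, ← Finset.smul_sum]
    simp [add_comm]

theorem coeff_pd {R : Type} [CommRing R] {ι : Type} [DecidableEq ι] (i : ι) (p : MvPolynomial ι R)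
    (m : ι →₀ ℕ) : coeff m (pderiv i p) = coeff (m + Finsupp.single i 1) p * ((m i : R) + 1) := by
  induction p using MvPolynomial.induction_on' with
  | monomial n a =>
    rw [pderiv_monomial, coeff_monomial, coeff_monomial]
    by_cases h : n = m + Finsupp.single i 1
    · subst h
      have h1 : m + Finsupp.single i 1 - Finsupp.single i 1 = m := by
        ext j
        simp
      rw [if_pos h1, if_pos rfl]
      simp
    · rw [if_neg h, zero_mul]
      by_cases h2 : n - Finsupp.single i 1 = m
      · rw [if_pos h2]
        have h3 : n i = 0 := by
          by_contra h4
          apply h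
          rw [← h2]
          ext j
          by_cases hj : j = i
          · subst hj
            simp
            omega
          · simp [Ne.symm hj]
        rw [h3]
        simp
      · rw [if_neg h2]
  | add p q hp hq =>
    rw [map_add, coeff_add, hp, hq, coeff_add, add_mul]

theorem alg_of_lin {L : Type} [Field L] [CharZero L] (A : Subring L) {ι : Type} [Finite ι]
    (x : ι → L) (h : LinearIndependent L (fun i => KaehlerDifferential.D A L (x i))) :
    AlgebraicIndependent A x := by
  classical
  have := Fintype.ofFinite ι
  have key : ∀ (N : ℕ) (p : MvPolynomial ι A), p.totalDegree < N → aeval x p = 0 → p = 0 := by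
    intro N
    induction N with
    | zero => intro p hp; omega
    | succ N ih =>
      intro p hN hp
      have h1 : ∑ i, (aeval x (pderiv i p)) • KaehlerDifferential.D A L (x i) = 0 := by
        rw [← D_aeval, hp, map_zero]
      have h2 := Fintype.linearIndependent_iff.1 h _ h1
      -- all derivatives vanish
      have h3 : ∀ i, pderiv i p = 0 := by
        intro i
        by_cases hd : (pderiv i p).totalDegree < N
        · exact ih _ hd (h2 i)
        · by_contra hne
          apply hd
          obtain ⟨m, hm, hmd⟩ : ∃ m ∈ (pderiv i p).support,
              (m.sum fun _ e => e) = (pderiv i p).totalDegree := by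
            have hs : (pderiv i p).support.Nonempty := by
              rwa [Finset.nonempty_iff_ne_empty, ne_eq, support_eq_empty]
            obtain ⟨m, hm, h5⟩ := Finset.exists_mem_eq_sup _ hs fun m : ι →₀ ℕ => m.sum fun _ e => e
            exact ⟨m, hm, h5.symm⟩
          rw [mem_support_iff, coeff_pd] at hm
          have h6 : m + Finsupp.single i 1 ∈ p.support := by
            rw [mem_support_iff]
            exact left_ne_zero_of_mul hm
          have h7 := le_totalDegree h6
          rw [Finsupp.sum_add_index' (fun _ => rfl) (fun _ _ _ => rfl),
            Finsupp.sum_single_index rfl] at h7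
          omega
      -- so p is constant
      have h4 : p = C (coeff 0 p) := by
        ext m
        rw [coeff_C]
        by_cases hm : 0 = m
        · subst hm; simp
        · rw [if_neg hm]
          obtain ⟨i, hi⟩ : ∃ i, m i ≠ 0 := by
            by_contra hc
            push Not at hc
            exact hm (by ext i; simp [hc i])
          have h5 : m - Finsupp.single i 1 + Finsupp.single i 1 = m := by
            ext j
            by_cases hj : j = i
            · subst hj
              simp
              omega
            · simp [Ne.symm hj]
          have h6 := coeff_pd i p (m - Finsupp.single i 1)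
          rw [h3 i, coeff_zero, h5] at h6
          have h7 : ((((m - Finsupp.single i 1 : ι →₀ ℕ) i : ℕ) : A) + 1) ≠ 0 := by
            have h9 := Nat.cast_add_one_ne_zero (R := A) ((m - Finsupp.single i 1 : ι →₀ ℕ) i)
            exact h9
          rcases mul_eq_zero.1 h6.symm with h8 | h8
          · rw [h8]
          · exact absurd h8 h7
      rw [h4, aeval_C] at hp
      rw [h4]
      have h5 : coeff 0 p = 0 := by
        have : ((coeff 0 p : A) : L) = 0 := hp
        exact_mod_cast this
      rw [h5, map_zero]
  rw [AlgebraicIndependent, injective_iff_map_eq_zero]
  exact fun p hp => key _ p (Nat.lt_succ_self _) hp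

end Pool.Agent.H62KD
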